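import Mathlib
import Pool.Agent.Lib.MP_5725d1_gt.Defs
import Pool.Agent.Lib.MP_5725d1_gt.Ring

set_option autoImplicit false

namespace Pool.Agent.Results.MP_5725d1_gt.DoyleRigidity

open Pool.Agent.Lib.MP_5725d1_gt

/-- Every locally univalent circle packing for the hexagonal complex is a regular hexagonal packing
or a Doyle spiral: its label is `c a^n b^m`. -/
theorem result :
    ∀ (R : ℤ × ℤ → ℝ) (Z : ℤ × ℤ → ℂ), IsCirclePacking R Z → LocallyUnivalent R Z →
      ∃ a b c : ℝ, 0 < a ∧ 0 < b ∧ 0 < c ∧ ∀ n m : ℤ, R (n, m) = c * a ^ n * b ^ m := by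
  intro R Z hP hU
  have hpos := hP.label.pos
  have hinj : Function.Injective nbr := by decide
  -- the ring lemma at every flower
  have hring : ∀ v i, (rc 5) ^ 2 * R v ≤ R (v + nbr i) := by
    intro v
    have hd : ∀ i j, i ≠ j → R (v + nbr i) + R (v + nbr j)
        ≤ ‖(Z (v + nbr i) - Z v) - (Z (v + nbr j) - Z v)‖ := by
      intro i j hij
      have hne : v + nbr i ≠ v + nbr j := fun h => hij (hinj (add_left_cancel h))
      have h1 : Disjoint (Metric.ball (Z (v + nbr i)) (R (v + nbr i)))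
          (Metric.ball (Z (v + nbr j)) (R (v + nbr j))) :=
        hU v (Set.mem_insert_of_mem _ ⟨i, rfl⟩) (Set.mem_insert_of_mem _ ⟨j, rfl⟩) hne
      rw [disjoint_ball_ball_iff (hpos _) (hpos _), dist_eq_norm] at h1
      rwa [sub_sub_sub_cancel_right]
    have ht : ∀ i, ‖(Z (v + nbr i) - Z v) - (Z (v + nbr (i + 1)) - Z v)‖
        = R (v + nbr i) + R (v + nbr (i + 1)) := by
      intro i
      have h1 := hP.tangent (v + nbr i) (i + 2)
      rw [add_assoc, nbr_add_two, dist_eq_norm] at h1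
      rwa [sub_sub_sub_cancel_right]
    have hw : ∀ i, ‖Z (v + nbr i) - Z v‖ = R v + R (v + nbr i) := by
      intro i
      rw [← hP.tangent v i, dist_eq_norm, norm_sub_rev]
    exact ring_lemma (R v) (fun i => R (v + nbr i)) (fun i => Z (v + nbr i) - Z v) (hpos v)
      (fun i => hpos _) hw ht hd (hP.label.angle_sum v)
  have hκ : 0 < (rc 5) ^ 2 := pow_pos (rc_pos 5) 2
  have hlow : ∀ v i, Real.log ((rc 5) ^ 2) + Real.log (R v) ≤ Real.log (R (v + nbr i)) := by
    intro v i
    rw [← Real.log_mul hκ.ne' (hpos v).ne']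
    exact Real.log_le_log (mul_pos hκ (hpos v)) (hring v i)
  refine bounded_ratio_rigidity R hpos hP.label.angle_sum (-Real.log ((rc 5) ^ 2)) ?_
  intro v i
  rw [abs_le]
  have h1 := hlow v i
  have h2 := hlow (v + nbr i) (i + 3)
  rw [rev_snd] at h2
  constructor <;> linarith

end Pool.Agent.Results.MP_5725d1_gt.DoyleRigidity
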